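import Pool.Agent.H505.MF.Tws

/-!
# Dihedral Maass forms all of whose quadratic twists have vanishing central value

Let `K` be a real quadratic field whose discriminant `D` is odd and has only prime factors
`p ≡ 1 mod 4`. There are infinitely many `t > 0` for which there is a Hecke-Maass cusp form `u` of
weight `0` and trivial character on `Γ₀(D²)`, with Laplace eigenvalue `1/4 + t²`, dihedral with respect to
`K`, all of whose quadratic twists have central value zero. So for the irreducible cuspidal automorphic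
representation `π'` of `PGL(2)` over `ℚ` generated by `u` one has `N_{π'}(x) = 0` for all `x`.
-/

set_option autoImplicit false

open NumberField Filter Topology
open scoped ContDiff Laplacian MatrixGroups UpperHalfPlane

namespace Pool.Agent.Results.MP_5f72fe_nt.DihedralMaassVanishing

/-- `2 K_{it}(x) = ∫ exp(-x cosh v) cos(t v) dv` -/
noncomputable def besselK2 (t x : ℝ) : ℝ :=
  ∫ v : ℝ, Real.exp (-(x * Real.cosh v)) * Real.cos (t * v)

/-- `cos` if `e` is even (even forms), `sin` if `e` is odd (odd forms) -/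
noncomputable def trig (e : ℕ) (x : ℝ) : ℝ := if Even e then Real.cos x else Real.sin x

/-- the Hecke operator `T_p` in weight zero, unitary normalisation -/
noncomputable def heckeOp (p : ℕ) (u : ℂ → ℂ) (z : ℂ) : ℂ :=
  (1 / √(p : ℝ) : ℝ) * (u (p * z) + ∑ b ∈ Finset.range p, u ((z + b) / p))

/-- `u` is an even (`e` even) or odd (`e` odd) Hecke-Maass cusp form of weight `0` and trivial
character on `Γ₀(N)`, with Laplace eigenvalue `1/4 + t²` and Fourier coefficients `a(n)`, `a(1) = 1`. -/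
structure IsHeckeMaassCuspForm (N : ℕ) (t : ℝ) (e : ℕ) (a : ℕ → ℂ) (u : ℂ → ℂ) : Prop where
  /-- `u` is smooth on the upper half-plane -/
  smooth : ContDiffOn ℝ ∞ u {z : ℂ | 0 < z.im}
  /-- `-y² Δ u = (1/4 + t²) u` -/
  laplace : ∀ z : ℂ, 0 < z.im → -(z.im : ℂ) ^ 2 * (Δ u) z = (1 / 4 + (t : ℂ) ^ 2) * u z
  /-- `u(γ z) = u(z)` for `γ ∈ Γ₀(N)` -/
  invariant : ∀ γ ∈ CongruenceSubgroup.Gamma0 N, ∀ z : ℍ, u ((γ • z : ℍ) : ℂ) = u z
  /-- `u` decays exponentially at every cusp -/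
  decay : ∀ σ : SL(2, ℤ), ∃ C c : ℝ, 0 < c ∧
    ∀ z : ℍ, 1 ≤ z.im → ‖u ((σ • z : ℍ) : ℂ)‖ ≤ C * Real.exp (-c * z.im)
  /-- the constant term of `u` at every cusp is zero -/
  constant : ∀ (σ : SL(2, ℤ)) (z : ℍ), ∫ x in (0 : ℝ)..N, u ((σ • (x +ᵥ z) : ℍ) : ℂ) = 0
  /-- `u(x + iy) = ∑ a(n) √y · 2 K_{it}(2π n y) cos(2π n x)`, or the same with the sine -/
  expansion : ∀ z : ℂ, 0 < z.im → HasSum (fun n : ℕ => a n *
    ((√z.im * besselK2 t (2 * Real.pi * n * z.im) * trig e (2 * Real.pi * n * z.re) : ℝ) : ℂ)) (u z)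
  /-- normalisation -/
  a_zero : a 0 = 0
  /-- normalisation -/
  a_one : a 1 = 1
  /-- `T_p u = a(p) u` for all primes `p` not dividing `N` -/
  hecke : ∀ p : ℕ, p.Prime → ¬ p ∣ N → ∀ z : ℂ, 0 < z.im → heckeOp p u z = a p * u z

/-- `v` is the value at the centre `s = 1/2` of the entire function which for `Re s > 1` is the twisted
L-function `∑ a(n) η(n) n^(-s)` -/
def IsCentralValue (a : ℕ → ℂ) {q : ℕ} (η : DirichletCharacter ℂ q) (v : ℂ) : Prop :=
  ∃ L : ℂ → ℂ, Differentiable ℂ L ∧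
    (∀ s : ℂ, 1 < s.re → HasSum (fun n : ℕ => a n * η (n : ZMod q) * (n : ℂ) ^ (-s)) (L s)) ∧
    L (1 / 2) = v

/-- the primitive quadratic Dirichlet characters of conductor less than `x`, that is the characters
`η_E` of the quadratic fields `E`, real or imaginary, with `|Δ_E| < x` -/
def quadChars (x : ℝ) : Set (Σ q : ℕ, DirichletCharacter ℂ q) :=
  {η | 0 < η.1 ∧ (η.1 : ℝ) < x ∧ η.2.IsPrimitive ∧ η.2 ≠ 1 ∧ η.2 ^ 2 = 1}

/-- those for which the central value of the twist is not zero -/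
def nonvanishing (a : ℕ → ℂ) (x : ℝ) : Set (Σ q : ℕ, DirichletCharacter ℂ q) :=
  {η ∈ quadChars x | ∃ v : ℂ, IsCentralValue a η.2 v ∧ v ≠ 0}

/-- **Main theorem.** For every real quadratic field `K` whose discriminant `D` is odd and has only
prime factors `p ≡ 1 mod 4` there are infinitely many `t > 0` for which there is a Hecke-Maass cusp form
of level `D²`, trivial character and Laplace eigenvalue `1/4 + t²`, with real coefficients `a(n)` which are
zero if `n` is not prime to `D` and if `n` is a prime which is inert in `K`, such that the central value of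
the twist by every primitive quadratic (or trivial) Dirichlet character is well defined and is zero. So
the number of the quadratic fields with `|Δ_E| < x` and nonzero central value is `0` for all `x`. -/
theorem result (K : Type) [Field K] [NumberField K] (h2 : Module.finrank ℚ K = 2)
    (hr : ∀ w : InfinitePlace K, w.IsReal) (hodd : Odd (discr K))
    (hp : ∀ p : ℕ, p.Prime → (p : ℤ) ∣ discr K → p % 4 = 1) :
    {t : ℝ | 0 < t ∧ ∃ (e : ℕ) (a : ℕ → ℂ) (u : ℂ → ℂ),
      IsHeckeMaassCuspForm ((discr K).natAbs ^ 2) t e a u ∧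
      (∀ n : ℕ, (starRingEnd ℂ) (a n) = a n) ∧
      (∀ n : ℕ, ¬ n.Coprime (discr K).natAbs → a n = 0) ∧
      (∀ p : ℕ, p.Prime → jacobiSym (p : ℤ) (discr K).natAbs = -1 → a p = 0) ∧
      (∀ (q : ℕ) (η : DirichletCharacter ℂ q), 0 < q → η.IsPrimitive → η ^ 2 = 1 →
        (∃! v : ℂ, IsCentralValue a η v) ∧ IsCentralValue a η 0) ∧
      (∀ x : ℝ, nonvanishing a x = ∅) ∧
      ¬ ∃ c : ℝ, 0 < c ∧ ∀ᶠ x : ℝ in atTop, c * x ≤ ((nonvanishing a x).ncard : ℝ)}.Infinite := by
  obtain ⟨B⟩ := Pool.Agent.H505.exists_QB K h2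
  have hDpos := Pool.Agent.H505.D_pos B hr
  set M : ℕ := (discr K).natAbs with hMdef
  have hM : (M : ℤ) = B.D := by
    rw [hMdef, B.discr_eq]
    omega
  have hM2 : ¬ 2 ∣ M := by
    intro h
    rw [B.discr_eq, ← hM] at hodd
    have h3 : (2 : ℤ) ∣ (M : ℤ) := by exact_mod_cast h
    rw [Int.odd_iff] at hodd
    omega
  have : NeZero M := ⟨by omega⟩
  obtain ⟨w₁, w₂, hne, huniv⟩ := Pool.Agent.H505.two_places h2 hr
  obtain ⟨e0, hinf⟩ := Pool.Agent.H505.exists_many (hM := hM) (hM2 := hM2) h2 hr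
  -- the map from the infinity types to the spectral parameters is two-to-one
  intro hfin
  apply hinf
  refine Set.Finite.subset ((hfin.union (hfin.image fun t => -t)).image
    fun s => Pool.Agent.H505.nu w₁ s) ?_
  rintro ν ⟨hν, hν0, ψ, hψ, hB⟩
  have hνw : ν = Pool.Agent.H505.nu w₁ (ν w₁) := by
    have h3 := hν
    rw [Pool.Agent.H505.sum_two hne huniv] at h3
    funext w
    unfold Pool.Agent.H505.nu
    rcases huniv w with rfl | rfl
    · rw [if_pos rfl]
    · rw [if_neg hne.symm]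
      linarith
  refine ⟨ν w₁, ?_, hνw.symm⟩
  suffices h : |ν w₁| ∈ {t : ℝ | 0 < t ∧ ∃ (e : ℕ) (a : ℕ → ℂ) (u : ℂ → ℂ),
        IsHeckeMaassCuspForm (M ^ 2) t e a u ∧
        (∀ n : ℕ, (starRingEnd ℂ) (a n) = a n) ∧
        (∀ n : ℕ, ¬ n.Coprime M → a n = 0) ∧
        (∀ p : ℕ, p.Prime → jacobiSym (p : ℤ) M = -1 → a p = 0) ∧
        (∀ (q : ℕ) (η : DirichletCharacter ℂ q), 0 < q → η.IsPrimitive → η ^ 2 = 1 →
          (∃! v : ℂ, IsCentralValue a η v) ∧ IsCentralValue a η 0) ∧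
        (∀ x : ℝ, nonvanishing a x = ∅) ∧
        ¬ ∃ c : ℝ, 0 < c ∧ ∀ᶠ x : ℝ in atTop, c * x ≤ ((nonvanishing a x).ncard : ℝ)} by
    rcases abs_choice (ν w₁) with h4 | h4
    · left
      rw [← h4]
      exact h
    · right
      exact ⟨|ν w₁|, h, by simp only [h4, neg_neg]⟩
  obtain ⟨m1, m2, m3, m4, m5, m6, m7, m8, m9, m10⟩ :=
    Pool.Agent.H505.MF.maass h2 hr hν hν0 hψ hB w₁
  obtain ⟨-, -, -, c4, c5, -, -⟩ := Pool.Agent.H505.MF.COE.main K B M hM e0 ν ψ hB
  have key : ∀ (q : ℕ) (η : DirichletCharacter ℂ q), 0 < q → η.IsPrimitive → η ^ 2 = 1 →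
      ∀ v : ℂ, IsCentralValue (Pool.Agent.H505.MF.cfa ψ) η v ↔ v = 0 := by
    intro q η hq hη1 hη2 v
    obtain ⟨v₀, h3, h4⟩ := Pool.Agent.H505.MF.cn_unique h2 hr hB hM hM2 hq.ne'
      (show η ∈ Pool.Agent.H505.PQ q from ⟨hη1, hη2⟩)
    have he : Even (((q.gcd M).primeFactors.filter (fun p => p % 4 = 3)).card) := by
      have h5 : (q.gcd M).primeFactors.filter (fun p => p % 4 = 3) = ∅ := by
        rw [Finset.filter_eq_empty_iff]
        intro p hp' h6
        have h7 := Nat.prime_of_mem_primeFactors hp'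
        have h8 : p ∣ M := (Nat.dvd_of_mem_primeFactors hp').trans (Nat.gcd_dvd_right _ _)
        have h9 := hp p h7 (by
          rw [B.discr_eq, ← hM]
          exact_mod_cast h8)
        omega
      rw [h5]
      exact ⟨0, by simp⟩
    have h6 := h4 he
    subst h6
    exact h3 v
  have hN : ∀ x : ℝ, nonvanishing (Pool.Agent.H505.MF.cfa ψ) x = ∅ := by
    intro x
    rw [Set.eq_empty_iff_forall_notMem]
    rintro ⟨q, η⟩ ⟨⟨h3, -, h4, -, h5⟩, v, h6, h7⟩
    exact h7 ((key q η h3 h4 h5 v).1 h6)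
  refine ⟨m1, e0, Pool.Agent.H505.MF.cfa ψ, _, ⟨m2, m3, m4, m5, m6, m7, m8, m9, m10⟩, c5, c4,
    fun p hp hj => Pool.Agent.H505.MF.cfa_inert hM hM2 hp hj, ?_, hN, ?_⟩
  · intro q η hq hη1 hη2
    exact ⟨⟨0, (key q η hq hη1 hη2 0).2 rfl, fun v hv => (key q η hq hη1 hη2 v).1 hv⟩,
      (key q η hq hη1 hη2 0).2 rfl⟩
  · rintro ⟨c, hc, hx⟩
    obtain ⟨x, hx1, hx2⟩ := (hx.and (eventually_gt_atTop 0)).exists
    rw [hN x, Set.ncard_empty] at hx1
    have : 0 < c * x := mul_pos hc hx2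
    norm_num at hx1
    linarith

end Pool.Agent.Results.MP_5f72fe_nt.DihedralMaassVanishing
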